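import Pool.Agent.Lib.MP_6d445e_gt.Iface
import Pool.Agent.Lib.MP_c5d73d_lc.F.H62.Roapi

/-!
# Module P2: the generic ultrafilter is a P-point
-/

universe u

open Cardinal Filter

namespace Pool.Agent.Lib.MP_6d445e_gt.H16

open Pool.Agent.Lib.MP_100a6c_lc
open Pool.Agent.Lib.MP_c5d73d_lc.F (pr)
open Pool.Agent.Lib.MP_e6fef2_lc
open Pool.Agent.Lib.MP_c5d73d_lc.F.H62 (pr_le_iff pr_mono mem_reg pr_ne_bot eq_iSup_pr mem_pr_iff)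

/-- Compatible elements from a nonzero meet. -/
theorem exists_common {S : Type u} [Preorder S] {s t : S} (h : (pr s ⊓ pr t : H1.RO S) ≠ ⊥) :
    ∃ r, r ≤ s ∧ r ≤ t := by
  by_contra hcon
  push Not at hcon
  apply h
  rw [eq_iSup_pr (pr s ⊓ pr t : H1.RO S), iSup_eq_bot]
  rintro ⟨r, hr⟩
  exfalso
  have h1 : (pr r : H1.RO S) ≤ pr s := hr.trans inf_le_left
  have h2 : (pr r : H1.RO S) ≤ pr t := hr.trans inf_le_right
  rw [pr_le_iff, mem_pr_iff] at h1 h2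
  obtain ⟨r1, hr1, hs1⟩ := h1 r le_rfl
  obtain ⟨r2, hr2, hs2⟩ := h2 r1 hr1
  exact hcon r2 (hr2.trans hs1) hs2

theorem p2 (hNG : NgStatement.{u}) (hSGS : SgsStatement.{u}) : P2Statement.{u} := by
  intro A _ ι hι hpe b
  obtain ⟨-, -, hfmeet, -, -, -, -, -, -, -, -, -, -, -, -, -, -, -, -⟩ := all_alg _ _ ι hι
  have hfbot : ι ⊥ = ⊥ := (all_alg _ _ ι hι).2.1
  have hftop : ι ⊤ = ⊤ := (all_alg _ _ ι hι).1
  by_contra hcon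
  set R : A := ⨆ B : Sw.{u}, ι (pr B) ⊓ ⨅ k, ⨆ m, ⨅ n ∈ B.S, ⨅ _ : m ≤ n, b k n with hR
  set a : A := (⨅ k, pos ι (b k)) ⊓ Rᶜ with ha
  have hane : a ≠ ⊥ := by
    intro h
    apply hcon
    rw [← sdiff_eq_bot_iff, sdiff_eq]
    exact h
  -- some `s` meeting `a`
  obtain ⟨s, hs⟩ : ∃ s : Sw.{u}, ι (pr s) ⊓ a ≠ ⊥ := by
    by_contra hno
    push Not at hno
    apply hane
    have h1 : (⊤ : A) = ⨆ r ∈ Set.range (fun s : {s : Sw.{u} // pr s ≤ (⊤ : H1.RO Sw.{u})} => (pr s.1 : H1.RO Sw.{u})), ι r := by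
      rw [← hι.sSup, sSup_range, ← eq_iSup_pr, hftop]
    have h2 : a = a ⊓ ⊤ := by simp
    rw [h2, h1, inf_iSup_eq, iSup_eq_bot]
    intro r
    rw [inf_iSup_eq, iSup_eq_bot]
    rintro ⟨t, rfl⟩
    rw [inf_comm]
    exact hno t.1
  let φ : ℕ → Sw.{u} → A := fun k B => ι (pr B) ⊓ ⨅ n ∈ B.S, b k n
  obtain ⟨hex, -, hcount, hconst, -⟩ := all_club.{u}
  have hdmr := (all_dmr.{u} Sw.{u}).2.2
  have hall : ∀ᶠ N in club, (∀ b : A, In N b → ∀ s : Sw.{u}, In N s → ι (pr s) ⊓ b ≠ ⊥ →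
      ∃ t ≤ s, In N t ∧ ∀ s' ≤ t, SG N s' → ι (pr s') ⊓ (gen A N ⊓ b) ≠ ⊥) ∧
      (∀ s : Sw.{u}, In N s → ∃ s' ≤ s, SG N s') ∧
      (∀ᶠ g in ae A, gen A N ∈ g → ∀ φ : Sw.{u} → A, In N φ → (⨆ t, φ t) ∈ g →
        ∃ t, In N t ∧ φ t ∈ g) ∧
      (∀ s t : Sw.{u}, SG N s → In N t → s ≤ t ∨ ∀ r ≤ s, ¬ r ≤ t) ∧ In N a ∧ In N s ∧
      ∀ k, In N (φ k) := by
    filter_upwards [all_xnz.{u} Sw.{u} hSGS.1 A ι hι hpe, hSGS.1, hNG A Sw.{u}, hdmr,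
      hconst A a, hconst Sw.{u} s, hcount (fun k N => In N (φ k)) fun k => hconst _ (φ k)]
      with N h1 h2 h3 h4 h5 h6 h7
    exact ⟨h1, h2, h3, h4, h5, h6, h7⟩
  obtain ⟨N, -, -, h1, h2, h3, h4, h5, h6, h7⟩ := hex _ hall ∅ Set.countable_empty
  obtain ⟨t, hts, htN, ht⟩ := h1 a h5 s h6 hs
  obtain ⟨s', hs't, hsg⟩ := h2 t htN
  have hne := ht s' hs't hsg
  have hinf : ∀ᶠ g in ae A, ∀ k m, (⨅ n, ⨅ _ : n ∈ s'.S, ⨅ _ : m ≤ n, b k n) ∈ g ↔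
      ∀ n, (⨅ _ : n ∈ s'.S, ⨅ _ : m ≤ n, b k n) ∈ g :=
    ae_all fun k => ae_all fun m => ae_iInf _
  obtain ⟨g, hg, hg3, hginf, hgk⟩ := exists_of_ae (h3.and (hinf.and
    (ae_iInf fun k => ⨆ m, ⨅ n ∈ s'.S, ⨅ _ : m ≤ n, b k n))) hne
  rw [g.mem_inf, g.mem_inf] at hg
  obtain ⟨hgs, hggen, hga⟩ := hg
  rw [ha, g.mem_inf, g.mem_compl] at hga
  apply hga.2
  refine g.mono (le_iSup _ s') ?_
  rw [g.mem_inf]
  refine ⟨hgs, hgk.2 fun k => ?_⟩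
  have hpos : (⨆ B, φ k B) ∈ g := g.mono (iInf_le (fun k => pos ι (b k)) k) hga.1
  obtain ⟨B, hB, hBg⟩ := hg3 hggen (φ k) (h7 k) hpos
  rw [g.mem_inf] at hBg
  have hle : s' ≤ B := by
    refine (h4 s' B hsg hB).resolve_right fun hno => ?_
    have h8 : (pr s' ⊓ pr B : H1.RO Sw.{u}) ≠ ⊥ := by
      intro h9
      have h10 : ι (pr s') ⊓ ι (pr B) ∈ g := g.mem_inf.2 ⟨hgs, hBg.1⟩
      rw [← hfmeet] at h10
      have h11 : ι (pr s' ⊓ pr B) = ⊥ := (congrArg ι h9).trans hfbot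
      exact g.not_bot (h11 ▸ h10)
    obtain ⟨r, hr1, hr2⟩ := exists_common h8
    exact hno r hr1 hr2
  rw [Sw.le_def] at hle
  obtain ⟨m, hm⟩ := hle.bddAbove
  refine g.mono (le_iSup _ (m + 1)) ((hginf k (m + 1)).2 fun n => ?_)
  by_cases hn : n ∈ s'.S
  · by_cases hmn : m + 1 ≤ n
    · simp only [hn, hmn, iInf_pos]
      have hnB : n ∈ B.S := by
        by_contra hnB
        have := hm (show n ∈ s'.S \ B.S from ⟨hn, hnB⟩)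
        omega
      exact g.mono (iInf₂_le n hnB) hBg.2
    · simp only [hmn, iInf_false, iInf_top]
      exact g.mem_top
  · simp only [hn, iInf_false]
    exact g.mem_top

end Pool.Agent.Lib.MP_6d445e_gt.H16
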