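import Pool.Agent.Lib.MP_6d445e_gt.V.Iface3

/-!
# Module VBU: density and conjugation
-/

universe u v

open Cardinal Filter

namespace Pool.Agent.Lib.MP_6d445e_gt.H16

open Pool.Agent.Lib.MP_100a6c_lc
open BName

section

variable {B : Type u} [CompleteBooleanAlgebra B]

theorem himp_app {γ a b : B} (h : γ ≤ a ⇨ b) (ha : γ ≤ a) : γ ≤ b :=
  (le_inf h ha).trans himp_inf_le

theorem le_of_iSup {ι : Sort*} {γ T : B} {φ : ι → B} (h : γ ≤ ⨆ x, φ x)
    (H : ∀ x, γ ⊓ φ x ≤ T) : γ ≤ T := by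
  refine (le_inf le_rfl h).trans ?_
  rw [inf_iSup_eq]
  exact iSup_le H

theorem cmul_app {Γ γ : B} {m t : BName B} (hcm : Γ ≤ isCMul (VB B) m t) (hγ : γ ≤ Γ)
    {x y z A : BName B} (h1 : γ ≤ op (VB B) m x y z) (h2 : γ ≤ bmem A t) (h3 : γ ≤ bmem z A)
    {T : B} (H : ∀ (δ : B) (C D : BName B), δ ≤ γ → δ ≤ bmem C t → δ ≤ bmem D t → δ ≤ bmem x C →
      δ ≤ bmem y D → (∀ x' y' z' : BName B, ∀ ε ≤ δ, ε ≤ bmem x' C → ε ≤ bmem y' D →
        ε ≤ op (VB B) m x' y' z' → ε ≤ bmem z' A) → δ ≤ T) : γ ≤ T := by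
  have h := hγ.trans hcm
  rw [isCMul] at h
  have h' := himp_app (h.trans ((iInf_le _ x).trans ((iInf_le _ y).trans
    ((iInf_le _ z).trans (iInf_le _ A))))) (le_inf (le_inf h1 h2) h3)
  refine le_of_iSup h' fun C => ?_
  refine le_of_iSup inf_le_right fun D => ?_
  refine H _ C D (inf_le_left.trans inf_le_left) ?_ ?_ ?_ ?_ ?_
  · exact inf_le_right.trans (inf_le_left.trans (inf_le_left.trans (inf_le_left.trans inf_le_left)))
  · exact inf_le_right.trans (inf_le_left.trans (inf_le_left.trans (inf_le_left.trans inf_le_right)))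
  · exact inf_le_right.trans (inf_le_left.trans (inf_le_left.trans inf_le_right))
  · exact inf_le_right.trans (inf_le_left.trans inf_le_right)
  · intro x' y' z' ε hε hx hy hz
    have h4 := hε.trans (inf_le_right.trans inf_le_right)
    exact himp_app (h4.trans ((iInf_le _ x').trans ((iInf_le _ y').trans (iInf_le _ z'))))
      (le_inf (le_inf hx hy) hz)

theorem cinv_app {Γ γ : B} {m e t : BName B} (hci : Γ ≤ isCInv (VB B) m e t) (hγ : γ ≤ Γ)
    {x y A : BName B} (h1 : γ ≤ op (VB B) m x y e) (h2 : γ ≤ bmem A t) (h3 : γ ≤ bmem y A)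
    {T : B} (H : ∀ (δ : B) (C : BName B), δ ≤ γ → δ ≤ bmem C t → δ ≤ bmem x C →
      (∀ x' y' : BName B, ∀ ε ≤ δ, ε ≤ bmem x' C → ε ≤ op (VB B) m x' y' e → ε ≤ bmem y' A) →
        δ ≤ T) : γ ≤ T := by
  have h := hγ.trans hci
  rw [isCInv] at h
  have h' := himp_app (h.trans ((iInf_le _ x).trans ((iInf_le _ y).trans (iInf_le _ A))))
    (le_inf (le_inf h1 h2) h3)
  refine le_of_iSup h' fun C => ?_
  refine H _ C inf_le_left ?_ ?_ ?_
  · exact inf_le_right.trans (inf_le_left.trans inf_le_left)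
  · exact inf_le_right.trans (inf_le_left.trans inf_le_right)
  · intro x' y' ε hε hx hz
    have h4 := hε.trans (inf_le_right.trans inf_le_right)
    exact himp_app (h4.trans ((iInf_le _ x').trans (iInf_le _ y'))) (le_inf hx hz)

end

theorem vbu : VbuStatement.{u} := by
  intro B _ Γ G m e t D hT hD U d hU hmul hbase hdns
  -- the multiplication
  have hop : ∀ (x y : Lm Γ G) (z : BName B) (γ : B), γ ≤ Γ → γ ≤ beq z (D.mul x y).1 →
      γ ≤ op (VB B) m x.1 y.1 z := by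
    intro x y z γ hγ hz
    have h := hD.mul x y z
    exact ((le_inf hγ hz).trans h.ge).trans inf_le_right
  have hopm : ∀ (x y : Lm Γ G) (γ : B), γ ≤ Γ → γ ≤ op (VB B) m x.1 y.1 (D.mul x y).1 := by
    intro x y γ hγ
    refine hop x y _ γ hγ ?_
    rw [beq_refl]
    exact le_top
  have hUt : ∀ n, Γ ≤ bmem (U n) t := fun n => (hU n).trans inf_le_left
  have hUe : ∀ n, Γ ≤ bmem e (U n) := fun n => (hU n).trans inf_le_right
  have heq : ∀ (x y : Lm Γ G) (A : BName B) (γ : B), γ ≤ D.eq x y → γ ≤ bmem x.1 A →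
      γ ≤ bmem y.1 A := by
    intro x y A γ h1 h2
    rw [hD.eq] at h1
    exact (le_inf h1 h2).trans (bmem_congr_left x.1 y.1 A)
  have hsymm : ∀ (x y : Lm Γ G), Γ ≤ D.eq x y → Γ ≤ D.eq y x := by
    intro x y h
    exact (le_inf le_rfl h).trans (hD.gr.symm x y)
  have htrans : ∀ (x y z : Lm Γ G), Γ ≤ D.eq x y → Γ ≤ D.eq y z → Γ ≤ D.eq x z := by
    intro x y z h h'
    exact (le_inf (le_inf le_rfl h) h').trans (hD.gr.trans x y z)
  -- `(δ⁻¹ 1) δ = 1`
  have hgrp : ∀ x : Lm Γ G, Γ ≤ D.eq (D.mul (D.mul (D.inv x) D.one) x) D.one := by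
    intro x
    refine htrans _ _ _ (hD.gr.assoc (D.inv x) D.one x) ?_
    refine htrans _ (D.mul (D.inv x) x) _ ?_ (hD.gr.inv_mul x)
    exact (le_inf (le_inf le_rfl (hD.gr.refl (D.inv x))) (hD.gr.one_mul x)).trans
      (hD.gr.mulc _ _ _ _)
  refine ⟨?_, ?_, ?_, ?_, ?_, ?_⟩
  · intro n x y
    exact heq x y _ _ (inf_le_left.trans inf_le_right) inf_le_right
  · intro n
    rw [hD.one]
    exact hUe n
  · intro n x y
    exact (hmul n x y).trans inf_le_left
  · intro n x y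
    exact (hmul n x y).trans inf_le_right
  · intro n x
    -- `x⁻¹ x = e`
    have h1 : Γ ≤ op (VB B) m (D.inv x).1 x.1 e := by
      refine hop (D.inv x) x e Γ le_rfl ?_
      have h2 := hsymm _ _ (hD.gr.inv_mul x)
      rw [hD.eq, hD.one] at h2
      exact h2
    refine cmul_app hT.cm le_rfl h1 (hUt n) (hUe n) fun γ C E hγ hC hE hxC hxE hCE => ?_
    refine cinv_app hT.ci hγ (hγ.trans (hD.inv x)) hC hxC fun δ C1 hδ hC1 hxC1 hinv => ?_
    have h3 : δ ≤ ⨆ i, bmem (d i).1 C1 :=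
      (le_inf (le_inf (hδ.trans hγ) hC1) hxC1).trans (hdns C1 x.1)
    refine le_of_iSup h3 fun i => ?_
    refine le_iSup_of_le i ?_
    have h4 : δ ⊓ bmem (d i).1 C1 ≤ bmem (D.inv (d i)).1 C :=
      hinv (d i).1 (D.inv (d i)).1 _ inf_le_left inf_le_right
        (inf_le_left.trans ((hδ.trans hγ).trans (hD.inv (d i))))
    exact hCE _ _ _ _ (inf_le_left.trans hδ) h4 (inf_le_left.trans (hδ.trans hxE))
      (hopm _ _ _ (inf_le_left.trans (hδ.trans hγ)))
  · intro c i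
    set q : Lm Γ G := D.mul (D.inv (d i)) D.one with hq
    have h1 : Γ ≤ bmem (D.mul q (d i)).1 (U c) := by
      refine heq D.one _ _ Γ (hsymm _ _ (hgrp (d i))) ?_
      rw [hD.one]
      exact hUe c
    refine cmul_app hT.cm le_rfl (hopm q (d i) Γ le_rfl) (hUt c) h1
      fun γ C E hγ hC hE hqC hdE hCE => ?_
    refine cmul_app hT.cm hγ (hopm (D.inv (d i)) D.one γ hγ) hC hqC
      fun δ C2 A hδ hC2 hA hdC2 heA hC2A => ?_
    have h2 : δ ≤ ⨆ n, (VB B).sub (U n) A := by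
      rw [hD.one] at heA
      exact (le_inf (hδ.trans hγ) (le_inf hA heA)).trans (hbase A)
    refine le_of_iSup h2 fun n => ?_
    refine le_iSup_of_le n (le_iInf fun x => ?_)
    rw [le_himp_iff]
    have h3 : δ ⊓ (VB B).sub (U n) A ⊓ bmem x.1 (U n) ≤ bmem x.1 A :=
      sub_apply (Γ := (VB B).sub (U n) A) le_rfl x.1 (inf_le_left.trans inf_le_right) inf_le_right
    have h4 : δ ⊓ (VB B).sub (U n) A ⊓ bmem x.1 (U n) ≤ δ := inf_le_left.trans inf_le_left
    have h5 := hC2A (D.inv (d i)).1 x.1 (D.mul (D.inv (d i)) x).1 _ h4 (h4.trans hdC2) h3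
      (hopm _ _ _ (h4.trans (hδ.trans hγ)))
    exact hCE _ _ _ _ (h4.trans hδ) h5 (h4.trans (hδ.trans hdE))
      (hopm _ _ _ (h4.trans (hδ.trans hγ)))

end Pool.Agent.Lib.MP_6d445e_gt.H16
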